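import Mathlib
import Pool.Agent.Lib.helper12.Idem
import Pool.Agent.Lib.helper12.Ladder

namespace Pool.Agent.Results.MP_32472a_al.Real

open Matrix

variable {K : Type} [Field K] {n : ℕ}

/-- irreducible tridiagonal -/
def ITri (M : Matrix (Fin n) (Fin n) K) : Prop :=
  ∀ i j : Fin n, (i.val + 1 < j.val ∨ j.val + 1 < i.val → M i j = 0) ∧
    (i.val + 1 = j.val ∨ j.val + 1 = i.val → M i j ≠ 0)

/-- the matrix of `X` in the basis formed by the columns of `P` -/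
def inB (P : GL (Fin n) K) (X : Matrix (Fin n) (Fin n) K) : Matrix (Fin n) (Fin n) K :=
  (P⁻¹).val * X * P.val

open Pool.Agent.Lib.helper12.Idem Pool.Agent.Lib.helper12.Ladder

def ch (P Q X Y : Matrix (Fin 4) (Fin 4) ℚ) : Prop :=
  P * Q = 1 ∧ Q * P = 1 ∧ (∀ i j, i ≠ j → (Q * X * P) i j = 0) ∧ ∀ i j : Fin 4,
    (i.val + 1 < j.val ∨ j.val + 1 < i.val → (Q * Y * P) i j = 0) ∧
    (i.val + 1 = j.val ∨ j.val + 1 = i.val → (Q * Y * P) i j ≠ 0)

theorem half {P Q X Y : Matrix (Fin 4) (Fin 4) ℚ} (h : ch P Q X Y) :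
    ∃ g : GL (Fin 4) ℝ, (inB g (X.map (algebraMap ℚ ℝ))).IsDiag ∧
      ITri (inB g (Y.map (algebraMap ℚ ℝ))) ∧
      ∀ i, inB g (X.map (algebraMap ℚ ℝ)) i i = ((Q * X * P) i i : ℝ) := by
  obtain ⟨h1, h2, h3, h4⟩ := h
  have e : ∀ M N : Matrix (Fin 4) (Fin 4) ℚ, (M * N).map (algebraMap ℚ ℝ) =
      M.map (algebraMap ℚ ℝ) * N.map (algebraMap ℚ ℝ) := fun M N => Matrix.map_mul
  let g : GL (Fin 4) ℝ := ⟨P.map (algebraMap ℚ ℝ), Q.map (algebraMap ℚ ℝ),
    by rw [← e, h1]; simp, by rw [← e, h2]; simp⟩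
  have k : ∀ Z : Matrix (Fin 4) (Fin 4) ℚ, inB g (Z.map (algebraMap ℚ ℝ)) =
      (Q * Z * P).map (algebraMap ℚ ℝ) := fun Z => by
    rw [e, e]; rfl
  refine ⟨g, ?_, ?_, fun i => by rw [k]; rfl⟩
  · intro i j hij
    rw [k, Matrix.map_apply, h3 i j hij, map_zero]
  · intro i j
    rw [k, Matrix.map_apply]
    refine ⟨fun h => by rw [(h4 i j).1 h, map_zero], fun h => ?_⟩
    exact (map_ne_zero _).2 ((h4 i j).2 h)

noncomputable def ψ : Matrix (Fin 4) (Fin 4) ℝ →+* Module.End ℂ (Fin 4 → ℂ) :=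
  (Matrix.toLinAlgEquiv' (R := ℂ) (n := Fin 4)).toRingEquiv.toRingHom.comp
    Complex.ofRealHom.mapMatrix

theorem ψ_smul (r : ℝ) (M : Matrix (Fin 4) (Fin 4) ℝ) : ψ (r • M) = (r : ℂ) • ψ M := by
  refine LinearMap.ext fun v => funext fun i => ?_
  simp [ψ, Matrix.toLinAlgEquiv'_apply, Matrix.mulVec, dotProduct, Finset.mul_sum, mul_assoc]

theorem ψ_map (M : Matrix (Fin 4) (Fin 4) ℚ) : ψ (M.map (algebraMap ℚ ℝ)) = fK ℂ 4 M := by
  refine LinearMap.ext fun v => funext fun i => ?_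
  simp [ψ, fK_apply, Matrix.toLinAlgEquiv'_apply, Matrix.mulVec, dotProduct]

theorem span4 {M a b c d : Matrix (Fin 4) (Fin 4) ℝ} (h : M ∈ Submodule.span ℝ {a, b, c, d}) :
    ∃ r s t u : ℝ, ψ M = (r : ℂ) • ψ a + (s : ℂ) • ψ b + (t : ℂ) • ψ c + (u : ℂ) • ψ d := by
  obtain ⟨r, _, h1, rfl⟩ := Submodule.mem_span_insert.1 h
  obtain ⟨s, _, h2, rfl⟩ := Submodule.mem_span_insert.1 h1
  obtain ⟨t, _, h3, rfl⟩ := Submodule.mem_span_insert.1 h2
  obtain ⟨u, rfl⟩ := Submodule.mem_span_singleton.1 h3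
  exact ⟨r, s, t, u, by simp only [map_add, ψ_smul, add_assoc]⟩

theorem quart (M : Matrix (Fin 4) (Fin 4) ℚ) (a b c d : ℚ)
    (h : (M - a • 1) * (M - b • 1) * (M - c • 1) * (M - d • 1) = 0) :
    (fK ℂ 4 M - (a : ℂ) • 1) * (fK ℂ 4 M - (b : ℂ) • 1) * (fK ℂ 4 M - (c : ℂ) • 1) *
      (fK ℂ 4 M - (d : ℂ) • 1) = 0 := by
  simpa only [map_mul, map_sub, fK_smul, map_one, map_zero] using congrArg (fK ℂ 4) h

def A0 : Matrix (Fin 4) (Fin 4) ℚ :=
  !![128, 0, 0, 0; 1, 272, 0, 0; 0, 1, 1028, 0; 0, 0, 1, 4097]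
def B0 : Matrix (Fin 4) (Fin 4) ℚ :=
  !![128, -777168, 0, 0; 0, 272, -3687300, 0; 0, 0, 1028, -12386493; 0, 0, 0, 4097]
def PA : Matrix (Fin 4) (Fin 4) ℚ :=
  !![-514382400, 0, 0, 0; 3572100, 2891700, 0, 0; -3969, -3825, -3069, 0; 1, 1, 1, 1]
def QA : Matrix (Fin 4) (Fin 4) ℚ :=
  !![-1/514382400, 0, 0, 0; 1/416404800, 1/2891700, 0, 0; -1/2088147600, -1/2320164, -1/3069, 0;
    1/46591793325, 1/11738925, 1/3069, 1]
def PB : Matrix (Fin 4) (Fin 4) ℚ :=
  !![1, -5397, 88446036, -259786570816; 0, 1, -102425, 1326731028; 0, 0, 21, -1376277;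
    0, 0, 0, 341]
def QB : Matrix (Fin 4) (Fin 4) ℚ :=
  !![1, 5397, 22111509, 69005807873; 0, 1, 102425/21, 15794417; 0, 0, 1/21, 65537/341;
    0, 0, 0, 1/341]

theorem c1 : ch PA QA A0 B0 := by unfold ch; decide +kernel
theorem c2 : ch PB QB B0 A0 := by unfold ch; decide +kernel

theorem irr : ∀ W : Submodule ℂ (Fin 4 → ℂ), W.map (fK ℂ 4 A0) ≤ W → W.map (fK ℂ 4 B0) ≤ W →
    W = ⊥ ∨ W = ⊤ :=
  irred ℂ A0 B0 ![[(1, [])], [(-128, []), (1, [true])],
      [(34816, []), (-400, [true]), (1, [true, true])],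
      [(-35790848, []), (446016, [true]), (-1428, [true, true]), (1, [true, true, true])]]
    ![[(-61937/512, []), (82437/139264, [true]), (-5397/9469952, [true, true]),
        (1/9469952, [true, true, true])],
      [(6025/8192, []), (-1813177/572653568, [true]), (114425/38940442624, [true, true]),
        (-21/38940442624, [true, true, true])],
      [(-6697/8421376, []), (1832953/552038039552, [true]),
        (-114681/37538586689536, [true, true]), (21/37538586689536, [true, true, true])],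
      [(450118825/2261182312382464, []), (-507333321/615041588968030208, [true]),
        (1863225/2460166355872120832, [true, true]),
        (-341/2460166355872120832, [true, true, true])]]
    [(-1/514382400, [false, false, false]), (257/24494400, [false, false]),
      (-467143/42865200, [false]), (17899793/8037225, [])]
    (fun i => Matrix.single i 0 1 *
      !![1, 5397, 22111509, 69005807873; 0, 0, 0, 0; 0, 0, 0, 0; 0, 0, 0, 0])
    (fun j => Matrix.single 0 j 1)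
    (by decide +kernel) (by decide +kernel) (by decide +kernel)

theorem pick (a b c d : ℝ) (ha : (a - 128) * (a - 272) * (a - 1028) * (a - 4097) = 0)
    (hb : (b - 128) * (b - 272) * (b - 1028) * (b - 4097) = 0)
    (hc : (c - 128) * (c - 272) * (c - 1028) * (c - 4097) = 0)
    (hd : (d - 128) * (d - 272) * (d - 1028) * (d - 4097) = 0) (h1 : a + b + c + d = 5525)
    (h2 : a - d = 21 / 4 * (b - c)) :
    (a = 128 ∧ b = 272 ∧ c = 1028 ∧ d = 4097) ∨ (a = 4097 ∧ b = 1028 ∧ c = 272 ∧ d = 128) := by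
  simp only [mul_eq_zero, sub_eq_zero] at ha hb hc hd
  rcases ha with ((rfl | rfl) | rfl) | rfl <;> rcases hb with ((rfl | rfl) | rfl) | rfl <;>
    rcases hc with ((rfl | rfl) | rfl) | rfl <;> rcases hd with ((rfl | rfl) | rfl) | rfl <;>
    first | (norm_num; done) | (norm_num at h1; done) | (norm_num at h2; done)

theorem fin (a0 a1 a2 a3 b0 b1 b2 b3 : ℝ) (θ t φ : ℕ → ℝ)
    (gθ : ∀ k, θ k = a0 + a1 * (8 / 4 ^ k) + a2 * (4 ^ k / 8))
    (gt : ∀ k, t k = b0 + b2 * (8 / 4 ^ k) + b1 * (4 ^ k / 8))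
    (gφ : ∀ k, φ k = (a1 + a3 * (4 ^ k / 8)) *
      ((1 - 1 / 4 ^ (k + 1)) * (1 - 64 / 4 ^ k) * (b2 + b3 * (4 ^ k / 8))))
    (d1 : ∀ k < 4, (θ k - 128) * (θ k - 272) * (θ k - 1028) * (θ k - 4097) = 0)
    (d2 : ∀ k < 4, (t k - 128) * (t k - 272) * (t k - 1028) * (t k - 4097) = 0)
    (d3 : 5525 = θ 0 + θ 1 + θ 2 + θ 3) (d4 : 5525 = t 0 + t 1 + t 2 + t 3)
    (d5 : 1081600 = θ 0 * t 0 + θ 1 * t 1 + θ 2 * t 2 + θ 3 * t 3 + φ 0 + φ 1 + φ 2)
    (d6 : 1293281600 = θ 0 ^ 2 * t 0 + θ 1 ^ 2 * t 1 + θ 2 ^ 2 * t 2 + θ 3 ^ 2 * t 3 +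
      φ 0 * (θ 0 + θ 1) + φ 1 * (θ 1 + θ 2) + φ 2 * (θ 2 + θ 3)) : False := by
  have s1 := pick _ _ _ _ (d1 0 (by omega)) (d1 1 (by omega)) (d1 2 (by omega)) (d1 3 (by omega))
    d3.symm (by simp only [gθ]; ring)
  have s2 := pick _ _ _ _ (d2 0 (by omega)) (d2 1 (by omega)) (d2 2 (by omega)) (d2 3 (by omega))
    d4.symm (by simp only [gt]; ring)
  have ha : a1 = 8 / 45 * θ 0 - 2 / 9 * θ 1 + 2 / 45 * θ 2 := by simp only [gθ]; ring
  have hb : b2 = 8 / 45 * t 0 - 2 / 9 * t 1 + 2 / 45 * t 2 := by simp only [gt]; ring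
  simp only [gφ] at d5 d6
  have fi : ∀ s : ℝ, a1 * b3 + a3 * b2 = 0 → a3 * b3 = s → 0 < a1 * b2 * s → False :=
    fun s e1 e2 e3 => by
      have : (a1 * b3 - a3 * b2) ^ 2 = (a1 * b3 + a3 * b2) ^ 2 - 4 * (a1 * b2 * (a3 * b3)) := by
        ring
      rw [e1, e2] at this
      linarith [sq_nonneg (a1 * b3 - a3 * b2)]
  rcases s1 with ⟨e0, e1, e2, e3⟩ | ⟨e0, e1, e2, e3⟩ <;>
    rcases s2 with ⟨f0, f1, f2, f3⟩ | ⟨f0, f1, f2, f3⟩ <;>
    rw [e0, e1, e2, e3, f0, f1, f2, f3] at d5 d6 <;> rw [e0, e1, e2] at ha <;>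
    rw [f0, f1, f2] at hb <;> norm_num at ha hb <;> subst ha hb
  · exact fi 1048576 (by linarith) (by linarith) (by norm_num)
  · exact fi 16384 (by linarith) (by linarith) (by norm_num)
  · exact fi 16384 (by linarith) (by linarith) (by norm_num)
  · exact fi 256 (by linarith) (by linarith) (by norm_num)

theorem core (x xi y z : Module.End ℂ (Fin 4 → ℂ)) (h0 : xi * x = 1)
    (h1 : (4 : ℂ) • (x * y) - y * x = (3 : ℂ) • 1) (h2 : (4 : ℂ) • (y * z) - z * y = (3 : ℂ) • 1)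
    (h3 : (4 : ℂ) • (z * x) - x * z = (3 : ℂ) • 1) (a0 a1 a2 a3 b0 b1 b2 b3 : ℝ)
    (hA : fK ℂ 4 A0 = (a0 : ℂ) • 1 + (a1 : ℂ) • x + (a2 : ℂ) • y + (a3 : ℂ) • (x * y))
    (hB : fK ℂ 4 B0 = (b0 : ℂ) • 1 + (b1 : ℂ) • y + (b2 : ℂ) • z + (b3 : ℂ) • (y * z)) :
    False := by
  have r1 : ∀ w, y (x w) = (4 : ℂ) • x (y w) - (3 : ℂ) • w := fun w => by
    have := LinearMap.congr_fun h1 w
    simp only [LinearMap.sub_apply, LinearMap.smul_apply, Module.End.mul_apply,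
      Module.End.one_apply] at this
    linear_combination (norm := module) -this
  have r2 : ∀ w, y (z w) = (1 / 4 : ℂ) • z (y w) + (3 / 4 : ℂ) • w := fun w => by
    have := LinearMap.congr_fun h2 w
    simp only [LinearMap.sub_apply, LinearMap.smul_apply, Module.End.mul_apply,
      Module.End.one_apply] at this
    linear_combination (norm := module) (1 / 4 : ℂ) • this
  have r3 : ∀ w, z (x w) = (1 / 4 : ℂ) • x (z w) + (3 / 4 : ℂ) • w := fun w => by
    have := LinearMap.congr_fun h3 w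
    simp only [LinearMap.sub_apply, LinearMap.smul_apply, Module.End.mul_apply,
      Module.End.one_apply] at this
    linear_combination (norm := module) (1 / 4 : ℂ) • this
  have p4 : Function.Injective fun k : ℕ => (4 : ℂ) ^ k := fun i j e => by
    have e' : (4 : ℂ) ^ i = 4 ^ j := e
    have : (4 : ℕ) ^ i = 4 ^ j := by exact_mod_cast e'
    exact Nat.pow_right_injective (by norm_num) this
  obtain ⟨μ, hμ, hmin⟩ := Set.exists_min_image {μ | y.HasEigenvalue μ} (fun μ => ‖μ‖)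
    y.finite_hasEigenvalue (Module.End.exists_eigenvalue y)
  obtain ⟨v0, hv, hv0⟩ := Module.End.HasEigenvalue.exists_hasEigenvector hμ
  rw [Module.End.mem_eigenspace_iff] at hv
  have m0 : μ ≠ 0 := fun e => by
    rw [e, zero_smul] at hv
    let u : ℕ → Fin 4 → ℂ := fun k => Nat.rec v0 (fun _ w => x w) k
    have us : ∀ k, u (k + 1) = x (u k) := fun k => rfl
    have hu : ∀ k, (x * y) (u k) = (1 - 4 ^ k : ℂ) • u k := fun k => by
      induction k with
      | zero =>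
        show x (y v0) = _
        simp [hv]
      | succ k ih =>
        rw [Module.End.mul_apply] at ih ⊢
        rw [us, r1, ih, map_sub, map_smul, map_smul, map_smul]
        module
    obtain ⟨k, hk⟩ := not_all (x * y) _ (fun i j e => p4 (sub_right_injective e)) u hu
    induction k with
    | zero => exact hv0 hk
    | succ k ih =>
      apply ih
      have := LinearMap.congr_fun h0 (u k)
      rw [Module.End.mul_apply, ← us, hk, map_zero] at this
      exact this.symm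
  have z0 : z v0 = μ⁻¹ • v0 := by
    by_contra h
    have e : y (z v0 - μ⁻¹ • v0) = (μ / 4) • (z v0 - μ⁻¹ • v0) := by
      rw [map_sub, r2, map_smul, hv, map_smul]
      match_scalars <;> field_simp <;> ring
    have := hmin (μ / 4) (Module.End.hasEigenvalue_of_hasEigenvector
      ⟨Module.End.mem_eigenspace_iff.2 e, sub_ne_zero.2 h⟩)
    have p := norm_pos_iff.2 m0
    simp at this
    linarith
  let v : ℕ → Fin 4 → ℂ := fun k => Nat.rec v0 (fun k w => x w - (μ * 4 ^ k)⁻¹ • w) k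
  have v00 : v 0 = v0 := rfl
  have vd : ∀ k, v (k + 1) = x (v k) - (μ * 4 ^ k)⁻¹ • v k := fun k => rfl
  have vs : ∀ k, x (v k) = v (k + 1) + (μ * 4 ^ k)⁻¹ • v k := fun k => by
    rw [vd]; module
  have hy : ∀ k, y (v k) = (μ * 4 ^ k) • v k := fun k => by
    induction k with
    | zero => rw [v00]; simpa using hv
    | succ k ih =>
      rw [vd, map_sub, r1, map_smul, ih, map_smul]
      match_scalars <;> field_simp <;> ring
  have hz : ∀ k, z (v (k + 1)) = (μ * 4 ^ (k + 1))⁻¹ • v (k + 1) +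
      ((1 - 1 / 4 ^ (k + 1)) * (1 - μ⁻¹ ^ 2 / 4 ^ k)) • v k := fun k => by
    induction k with
    | zero =>
      rw [vd, map_sub, r3, map_smul, v00, z0, map_smul]
      match_scalars <;> field_simp <;> ring
    | succ k ih =>
      rw [vd (k + 1), map_sub, r3, map_smul, ih, map_add, map_smul, map_smul, vs k]
      match_scalars <;> field_simp <;> ring
  let θ : ℕ → ℂ := fun k => a0 + a3 + a1 * (μ * 4 ^ k)⁻¹ + a2 * (μ * 4 ^ k)
  let α : ℕ → ℂ := fun k => a1 + a3 * (μ * 4 ^ k)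
  let t : ℕ → ℂ := fun k => b0 + b3 + b2 * (μ * 4 ^ k)⁻¹ + b1 * (μ * 4 ^ k)
  let β : ℕ → ℂ := fun k =>
    ((1 - 1 / 4 ^ (k + 1)) * (1 - μ⁻¹ ^ 2 / 4 ^ k)) * (b2 + b3 * (μ * 4 ^ k))
  have eA : ∀ k, fK ℂ 4 A0 (v k) = θ k • v k + α k • v (k + 1) := fun k => by
    rw [hA]
    simp only [LinearMap.add_apply, LinearMap.smul_apply, Module.End.mul_apply,
      Module.End.one_apply, hy, map_smul, vs, θ, α]
    match_scalars <;> field_simp <;> ring
  have eB0 : fK ℂ 4 B0 (v 0) = t 0 • v 0 := by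
    rw [hB, v00]
    simp only [LinearMap.add_apply, LinearMap.smul_apply, Module.End.mul_apply,
      Module.End.one_apply, z0, map_smul, hv, t]
    match_scalars <;> field_simp <;> ring
  have eB : ∀ k, fK ℂ 4 B0 (v (k + 1)) = t (k + 1) • v (k + 1) + β k • v k := fun k => by
    rw [hB]
    simp only [LinearMap.add_apply, LinearMap.smul_apply, Module.End.mul_apply,
      Module.End.one_apply, hz, map_add, hy, map_smul, t, β]
    match_scalars <;> field_simp <;> ring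
  obtain ⟨v4, v3, b, hb⟩ := ladder 3 (by simp) y _ _ (fun k => μ * 4 ^ k)
    (fun i j e => p4 (mul_left_cancel₀ m0 e)) v hv0 hy θ α t β eA eB0 eB irr
  obtain ⟨ε, hε, m3⟩ : ∃ ε : ℝ, (ε = 1 ∨ ε = -1) ∧ μ = ε / 8 := by
    have := hz 3
    rw [v4, map_zero, smul_zero, zero_add] at this
    have := (smul_eq_zero.1 this.symm).resolve_right v3
    have h : (μ - 1 / 8) * (μ + 1 / 8) = 0 := by
      field_simp at this
      linear_combination (1 / 16320 : ℂ) * this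
    rcases mul_eq_zero.1 h with h | h
    · exact ⟨1, Or.inl rfl, by push_cast; linear_combination h⟩
    · exact ⟨-1, Or.inr rfl, by push_cast; linear_combination h⟩
  obtain ⟨d1, d2, d3, d4, d5, d6⟩ := data _ _ v b hb v4 θ α t β eA eB0 eB
    ![(128 : ℚ), (272 : ℚ), (1028 : ℚ), (4097 : ℚ)]
    (quart A0 128 272 1028 4097 (by decide +kernel))
    (quart B0 128 272 1028 4097 (by decide +kernel))
  rw [fK_trace, (by decide +kernel : A0.trace = 5525)] at d3
  rw [fK_trace, (by decide +kernel : B0.trace = 5525)] at d4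
  rw [← map_mul, fK_trace, (by decide +kernel : (A0 * B0).trace = 1081600)] at d5
  rw [← map_mul, ← map_mul, fK_trace,
    (by decide +kernel : (A0 * A0 * B0).trace = 1293281600)] at d6
  obtain ⟨θ', hθ, gθ⟩ : ∃ f : ℕ → ℝ, (∀ k, θ k = f k) ∧ ∀ k,
      f k = (a0 + a3) + (ε * a1) * (8 / 4 ^ k) + (ε * a2) * (4 ^ k / 8) :=
    ⟨_, fun k => by
      rcases hε with rfl | rfl <;> simp only [θ, m3] <;> push_cast <;> field_simp <;> ring,
      fun _ => rfl⟩
  obtain ⟨t', ht, gt⟩ : ∃ f : ℕ → ℝ, (∀ k, t k = f k) ∧ ∀ k,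
      f k = (b0 + b3) + (ε * b2) * (8 / 4 ^ k) + (ε * b1) * (4 ^ k / 8) :=
    ⟨_, fun k => by
      rcases hε with rfl | rfl <;> simp only [t, m3] <;> push_cast <;> field_simp <;> ring,
      fun _ => rfl⟩
  obtain ⟨φ, hφ, gφ⟩ : ∃ f : ℕ → ℝ, (∀ k, α k * β k = f k) ∧ ∀ k, f k =
      (ε * a1 + a3 * (4 ^ k / 8)) *
      ((1 - 1 / 4 ^ (k + 1)) * (1 - 64 / 4 ^ k) * (ε * b2 + b3 * (4 ^ k / 8))) :=
    ⟨_, fun k => by
      rcases hε with rfl | rfl <;> simp only [α, β, m3] <;> push_cast <;> field_simp <;> ring,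
      fun _ => rfl⟩
  simp only [hθ, ht, hφ, Matrix.cons_val_zero, Matrix.cons_val_one, Matrix.cons_val,
    Rat.cast_ofNat] at d1 d2 d3 d4 d5 d6
  replace d3 := congrArg Complex.re d3
  replace d4 := congrArg Complex.re d4
  replace d5 := congrArg Complex.re d5
  replace d6 := congrArg Complex.re d6
  simp only [← Complex.ofReal_mul, ← Complex.ofReal_add, ← Complex.ofReal_pow, Complex.ofReal_re,
    Complex.re_ofNat] at d3 d4 d5 d6
  exact fin _ _ _ _ _ _ _ _ θ' t' φ gθ gt gφ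
    (fun k hk => Complex.ofReal_injective (by push_cast; exact d1 k hk))
    (fun k hk => Complex.ofReal_injective (by push_cast; exact d2 k hk)) d3 d4 d5 d6

theorem result : ∃ (q : ℝ) (A B : Matrix (Fin 4) (Fin 4) ℝ), q ≠ 0 ∧
    (∀ m : ℕ, 0 < m → q ^ m ≠ 1) ∧
    (∃ P, (inB P A).IsDiag ∧ ITri (inB P B) ∧ inB P A 0 0 - inB P A 3 3 =
      (q ^ 2 + q⁻¹ ^ 2 + 1) * (inB P A 1 1 - inB P A 2 2)) ∧
    (∃ P, (inB P B).IsDiag ∧ ITri (inB P A) ∧ inB P B 0 0 - inB P B 3 3 =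
      (q ^ 2 + q⁻¹ ^ 2 + 1) * (inB P B 1 1 - inB P B 2 2)) ∧
    ∀ X Xi Y Z : Matrix (Fin 4) (Fin 4) ℝ, X * Xi = 1 → Xi * X = 1 →
      q • (X * Y) - q⁻¹ • (Y * X) = (q - q⁻¹) • 1 → q • (Y * Z) - q⁻¹ • (Z * Y) = (q - q⁻¹) • 1 →
      q • (Z * X) - q⁻¹ • (X * Z) = (q - q⁻¹) • 1 →
      A ∉ Submodule.span ℝ {1, X, Y, X * Y} ∨ B ∉ Submodule.span ℝ {1, Y, Z, Y * Z} := by
  refine ⟨2, A0.map (algebraMap ℚ ℝ), B0.map (algebraMap ℚ ℝ), two_ne_zero, fun m hm h => ?_,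
    ?_, ?_, fun x xi y z _ h0 h1 h2 h3 => ?_⟩
  · have h2 : (2 : ℕ) ^ m = 1 := by exact_mod_cast h
    have := Nat.one_lt_two_pow hm.ne'
    omega
  · obtain ⟨g, h1, h2, h3⟩ := half c1
    refine ⟨g, h1, h2, ?_⟩
    have : ∀ i, (QA * A0 * PA) i i = ![128, 272, 1028, 4097] i := by decide +kernel
    simp only [h3, this, Matrix.cons_val_zero, Matrix.cons_val_one, Matrix.cons_val]
    norm_num
  · obtain ⟨g, h1, h2, h3⟩ := half c2
    refine ⟨g, h1, h2, ?_⟩
    have : ∀ i, (QB * B0 * PB) i i = ![128, 272, 1028, 4097] i := by decide +kernel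
    simp only [h3, this, Matrix.cons_val_zero, Matrix.cons_val_one, Matrix.cons_val]
    norm_num
  · by_contra hc
    push Not at hc
    obtain ⟨a0, a1, a2, a3, hA⟩ := span4 hc.1
    obtain ⟨b0, b1, b2, b3, hB⟩ := span4 hc.2
    have w : ∀ M N : Matrix (Fin 4) (Fin 4) ℝ,
        (2 : ℝ) • (M * N) - (2 : ℝ)⁻¹ • (N * M) = ((2 : ℝ) - 2⁻¹) • 1 →
        (4 : ℂ) • (ψ M * ψ N) - ψ N * ψ M = (3 : ℂ) • 1 := fun M N h => by
      have h' : (4 : ℝ) • (M * N) - N * M = (3 : ℝ) • 1 := by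
        linear_combination (norm := module) (2 : ℝ) • h
      simpa only [map_sub, map_mul, map_one, ψ_smul, Complex.ofReal_ofNat] using congrArg ψ h'
    simp only [map_mul, map_one, ψ_map] at hA hB
    exact core _ (ψ xi) _ _ (by rw [← map_mul, h0, map_one]) (w _ _ h1) (w _ _ h2) (w _ _ h3)
      _ _ _ _ _ _ _ _ hA hB

end Pool.Agent.Results.MP_32472a_al.Real
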